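import Pool.Agent.GLE.StmtsA
import Pool.Agent.GLE.StmtsC

namespace Pool.Agent.GLE.H25

open Polynomial MeasureTheory

theorem tau_nonneg (b k : ℕ) : 0 ≤ tau b k := integral_nonneg fun _ => by positivity

theorem num_core (e W : ℝ) (b : ℕ) (he : 0 < e) (he1 : e ≤ 1) (hW : 0 < W) (D r J : ℕ)
    (hD : 1 ≤ D) (hr : D ≤ r) (hN : (2 : ℝ) ^ (b * J) ≤ 2 ^ b * (D : ℝ) ^ 4)
    (h : (r : ℝ) ^ r ≤ D * (3 * D * (1 + b * J : ℝ)) *
      (W * (((2 ^ (b * J) : ℕ) : ℝ)) ^ (2 * e) * (3 * D * (1 + b * J : ℝ))) ^ r) :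
    (r : ℝ) ≤ 8 * (3 * (1 + b + 6 / e)) * (W * ((2 : ℝ) ^ b) ^ (2 * e) *
      (3 * (1 + b + 6 / e))) * (D : ℝ) ^ (1 + 9 * e) := by
  have hD1 : (1 : ℝ) ≤ D := by exact_mod_cast hD
  have hD0 : (0 : ℝ) < D := by linarith
  have hl2 : 0 < Real.log 2 := Real.log_pos (by norm_num)
  have hl2' : 2 / 3 ≤ Real.log 2 := by
    have := Real.log_two_gt_d9
    linarith
  set C1 : ℝ := 3 * (1 + b + 6 / e) with hC1
  have hb0 : (0 : ℝ) ≤ b := Nat.cast_nonneg b
  have h6e : 0 < 6 / e := by positivity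
  have hC11 : 1 ≤ C1 := by
    rw [hC1]
    nlinarith
  set M : ℝ := 1 + b * J with hM
  have hlogD : Real.log D ≤ (D : ℝ) ^ e / e := Real.log_le_rpow_div hD0.le he
  have hDe1 : 1 ≤ (D : ℝ) ^ e := Real.one_le_rpow hD1 he.le
  have hM1 : M ≤ (1 + b + 6 / e) * (D : ℝ) ^ e := by
    have h1 : Real.log ((2 : ℝ) ^ (b * J)) ≤ Real.log (2 ^ b * (D : ℝ) ^ 4) :=
      Real.log_le_log (by positivity) hN
    rw [Real.log_mul (by positivity) (by positivity), Real.log_pow, Real.log_pow,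
      Real.log_pow] at h1
    push_cast at h1
    have hlD : 0 ≤ Real.log D := Real.log_nonneg hD1
    have h2 : (b : ℝ) * J ≤ b + 6 * Real.log D := by
      by_contra hcon
      push Not at hcon
      have h3 : (b + 6 * Real.log D) * Real.log 2 < b * J * Real.log 2 :=
        mul_lt_mul_of_pos_right hcon hl2
      have h4 : 4 * Real.log D ≤ 6 * Real.log D * Real.log 2 := by nlinarith
      linarith
    have h3 : 6 * Real.log D ≤ 6 / e * (D : ℝ) ^ e := by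
      calc 6 * Real.log D ≤ 6 * ((D : ℝ) ^ e / e) := by linarith
        _ = 6 / e * (D : ℝ) ^ e := by ring
    have h4 : (1 + (b : ℝ)) ≤ (1 + b) * (D : ℝ) ^ e := by
      have : 0 ≤ 1 + (b : ℝ) := by linarith
      nlinarith
    calc M = 1 + b * J := hM
      _ ≤ (1 + b) * (D : ℝ) ^ e + 6 / e * (D : ℝ) ^ e := by linarith
      _ = (1 + b + 6 / e) * (D : ℝ) ^ e := by ring
  have hM0 : 0 < M := by
    rw [hM]
    positivity
  have hQ : 3 * D * M ≤ C1 * (D : ℝ) ^ (1 + e) := by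
    rw [Real.rpow_add hD0, Real.rpow_one, hC1]
    calc 3 * D * M ≤ 3 * D * ((1 + b + 6 / e) * (D : ℝ) ^ e) := by
          apply mul_le_mul_of_nonneg_left hM1 (by positivity)
      _ = _ := by ring
  have hQ0 : 0 < 3 * D * M := by positivity
  have hDQ : D * (3 * D * M) ≤ (8 * C1) ^ r := by
    have h1 : (D : ℝ) * (3 * D * M) ≤ C1 * (D : ℝ) ^ (3 : ℕ) := by
      calc (D : ℝ) * (3 * D * M) ≤ D * (C1 * (D : ℝ) ^ (1 + e)) :=
            mul_le_mul_of_nonneg_left hQ hD0.le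
        _ ≤ D * (C1 * (D : ℝ) ^ (2 : ℝ)) := by
            apply mul_le_mul_of_nonneg_left _ hD0.le
            apply mul_le_mul_of_nonneg_left _ (by linarith)
            exact Real.rpow_le_rpow_of_exponent_le hD1 (by linarith)
        _ = C1 * (D : ℝ) ^ (3 : ℕ) := by
            rw [show (2 : ℝ) = ((2 : ℕ) : ℝ) by norm_num, Real.rpow_natCast]
            ring
    have h2 : (D : ℝ) ^ (3 : ℕ) ≤ 8 ^ r := by
      have h3 : D ≤ 2 ^ D := Nat.lt_two_pow_self.le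
      have h4 : (D : ℝ) ≤ 2 ^ D := by exact_mod_cast h3
      calc (D : ℝ) ^ (3 : ℕ) ≤ ((2 : ℝ) ^ D) ^ 3 := pow_le_pow_left₀ hD0.le h4 3
        _ = 8 ^ D := by rw [← pow_mul, mul_comm, pow_mul]; norm_num
        _ ≤ 8 ^ r := pow_le_pow_right₀ (by norm_num) hr
    have h3 : C1 ≤ C1 ^ r := by
      calc C1 = C1 ^ 1 := (pow_one _).symm
        _ ≤ C1 ^ r := pow_le_pow_right₀ hC11 (hD.trans hr)
    calc (D : ℝ) * (3 * D * M) ≤ C1 * (D : ℝ) ^ (3 : ℕ) := h1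
      _ ≤ C1 ^ r * 8 ^ r := mul_le_mul h3 h2 (by positivity) (by positivity)
      _ = 8 ^ r * C1 ^ r := mul_comm _ _
      _ = (8 * C1) ^ r := (mul_pow _ _ _).symm
  set Z : ℝ := W * (((2 ^ (b * J) : ℕ) : ℝ)) ^ (2 * e) * (3 * D * M) with hZ
  have hNpos : (0 : ℝ) < ((2 ^ (b * J) : ℕ) : ℝ) := by positivity
  have hZ0 : 0 < Z := by
    rw [hZ]
    positivity
  have hrr : (r : ℝ) ^ r ≤ (8 * C1 * Z) ^ r := by
    calc (r : ℝ) ^ r ≤ D * (3 * D * M) * Z ^ r := h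
      _ ≤ (8 * C1) ^ r * Z ^ r := mul_le_mul_of_nonneg_right hDQ (by positivity)
      _ = (8 * C1 * Z) ^ r := (mul_pow _ _ _).symm
  have hr1 : (r : ℝ) ≤ 8 * C1 * Z := by
    have hr0 : r ≠ 0 := by omega
    exact (pow_le_pow_iff_left₀ (Nat.cast_nonneg r) (by positivity) hr0).1 hrr
  have hZ1 : Z ≤ W * ((2 : ℝ) ^ b) ^ (2 * e) * C1 * (D : ℝ) ^ (1 + 9 * e) := by
    have h1 : (((2 ^ (b * J) : ℕ) : ℝ)) ^ (2 * e) ≤ (2 ^ b * (D : ℝ) ^ 4) ^ (2 * e) := by
      apply Real.rpow_le_rpow hNpos.le _ (by positivity)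
      push_cast
      exact hN
    have h2 : (2 ^ b * (D : ℝ) ^ 4) ^ (2 * e) = ((2 : ℝ) ^ b) ^ (2 * e) * (D : ℝ) ^ (8 * e) := by
      rw [Real.mul_rpow (by positivity) (by positivity)]
      congr 1
      rw [← Real.rpow_natCast (D : ℝ) 4, ← Real.rpow_mul hD0.le]
      congr 1
      push_cast
      ring
    rw [h2] at h1
    calc Z ≤ W * (((2 : ℝ) ^ b) ^ (2 * e) * (D : ℝ) ^ (8 * e)) * (C1 * (D : ℝ) ^ (1 + e)) := by
          rw [hZ]
          apply mul_le_mul _ hQ hQ0.le (by positivity)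
          exact mul_le_mul_of_nonneg_left h1 hW.le
      _ = W * ((2 : ℝ) ^ b) ^ (2 * e) * C1 * ((D : ℝ) ^ (8 * e) * (D : ℝ) ^ (1 + e)) := by ring
      _ = W * ((2 : ℝ) ^ b) ^ (2 * e) * C1 * (D : ℝ) ^ (1 + 9 * e) := by
          rw [← Real.rpow_add hD0]
          congr 2
          ring
  calc (r : ℝ) ≤ 8 * C1 * Z := hr1
    _ ≤ 8 * C1 * (W * ((2 : ℝ) ^ b) ^ (2 * e) * C1 * (D : ℝ) ^ (1 + 9 * e)) :=
        mul_le_mul_of_nonneg_left hZ1 (by positivity)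
    _ = _ := by ring

theorem num (kap : KapStmt) (ine : IneStmt) (amg : AmgStmt) : NumStmt := by
  intro ε hε
  set e : ℝ := min (ε / 20) 1 with he
  have he0 : 0 < e := lt_min (by positivity) one_pos
  have he1 : e ≤ 1 := min_le_right _ _
  have heε : 9 * e ≤ ε := by
    have : e ≤ ε / 20 := min_le_left _ _
    linarith
  obtain ⟨b, hb, W, hW, hkap⟩ := kap e he0
  set C2 : ℝ := 8 * (3 * (1 + b + 6 / e)) * (W * ((2 : ℝ) ^ b) ^ (2 * e) *
      (3 * (1 + b + 6 / e))) with hC2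
  have hC20 : 0 < C2 := by
    rw [hC2]
    positivity
  refine ⟨2 * C2 + 2, by positivity, fun D r g hD hg hrD => ?_⟩
  have hD1 : (1 : ℝ) ≤ D := by exact_mod_cast hD
  have hD0 : (0 : ℝ) < D := by linarith
  have hDpow : (D : ℝ) ≤ (D : ℝ) ^ (1 + ε) := by
    have := Real.rpow_le_rpow_of_exponent_le hD1 (show (1 : ℝ) ≤ 1 + ε by linarith)
    rwa [Real.rpow_one] at this
  have hpow0 : 0 < (D : ℝ) ^ (1 + ε) := by positivity
  rcases Nat.lt_or_ge (D + 1) r with hr | hr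
  · obtain ⟨n, rfl⟩ : ∃ n, r = n + 1 := ⟨r - 1, by omega⟩
    have hDn : D ≤ n := by omega
    have hn1 : 1 ≤ n := hD.trans hDn
    -- the level
    have hex : ∃ J, (n + 1) * D ≤ 2 ^ (b * J) := by
      refine ⟨(n + 1) * D, ?_⟩
      calc (n + 1) * D ≤ 2 ^ ((n + 1) * D) := Nat.lt_two_pow_self.le
        _ ≤ 2 ^ (b * ((n + 1) * D)) := Nat.pow_le_pow_right (by norm_num)
            (Nat.le_mul_of_pos_left _ (by omega))
    classical
    set J := Nat.find hex with hJ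
    have hJspec : (n + 1) * D ≤ 2 ^ (b * J) := Nat.find_spec hex
    have hJ1 : 1 ≤ J := by
      by_contra hcon
      have h0 : J = 0 := by omega
      rw [h0, mul_zero, pow_zero] at hJspec
      nlinarith
    have hJmin : ¬ (n + 1) * D ≤ 2 ^ (b * (J - 1)) := Nat.find_min hex (by omega)
    have hN : (2 : ℝ) ^ (b * J) ≤ 2 ^ b * (D : ℝ) ^ 4 := by
      have h1 : 2 ^ (b * J) ≤ 2 ^ b * D ^ 4 := by
        have h2 : b * J = b + b * (J - 1) := by
          obtain ⟨m, hm⟩ : ∃ m, J = m + 1 := ⟨J - 1, by omega⟩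
          rw [hm]
          simp only [Nat.add_sub_cancel]
          ring
        rw [h2, pow_add]
        apply Nat.mul_le_mul_left
        calc 2 ^ (b * (J - 1)) ≤ (n + 1) * D := by omega
          _ ≤ D ^ 3 * D := Nat.mul_le_mul_right _ hrD
          _ = D ^ 4 := by ring
      exact_mod_cast h1
    obtain ⟨κ, hκi, hκ, hprod⟩ := ine b D J n g hb hD hg hJspec
    have hM0 : (0 : ℝ) < 1 + b * J := by positivity
    have h := amg n (2 ^ (b * J)) κ (tau b) e W D (3 * D * (1 + b * J : ℝ)) hn1 he0 hW hD0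
      (by positivity) (tau_nonneg b) hκi hκ (hkap J) hprod
    have h2 := num_core e W b he0 he1 hW D n J hD hDn hN h
    have h3 : (D : ℝ) ^ (1 + 9 * e) ≤ (D : ℝ) ^ (1 + ε) :=
      Real.rpow_le_rpow_of_exponent_le hD1 (by linarith)
    have h4 : (n : ℝ) ≤ C2 * (D : ℝ) ^ (1 + ε) :=
      h2.trans (mul_le_mul_of_nonneg_left h3 hC20.le)
    have h5 : (1 : ℝ) ≤ n := by exact_mod_cast hn1
    push_cast
    nlinarith
  · have h1 : (r : ℝ) ≤ D + 1 := by exact_mod_cast hr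
    nlinarith [mul_pos hC20 hpow0]

end Pool.Agent.GLE.H25
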