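import Pool.Agent.GLE.StmtsA

namespace Pool.Agent.GLE.H25

open Finset

/-- cast of the vectors -/
def Wq {r : ℕ} (W : ℕ → Fin (r + 1) → ℤ) (k : ℕ) : Fin (r + 1) → ℚ := fun i => (W k i : ℚ)

/-- rational span of the first vectors -/
def VV {r : ℕ} (W : ℕ → Fin (r + 1) → ℤ) (n : ℕ) : Submodule ℚ (Fin (r + 1) → ℚ) :=
  Submodule.span ℚ (Wq W '' Set.Iio n)

theorem VV_zero {r : ℕ} (W : ℕ → Fin (r + 1) → ℤ) : VV W 0 = ⊥ := by
  unfold VV
  have : Set.Iio (0 : ℕ) = ∅ := by
    ext k
    simp
  rw [this, Set.image_empty, Submodule.span_empty]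

theorem VV_succ {r : ℕ} (W : ℕ → Fin (r + 1) → ℤ) (n : ℕ) :
    VV W (n + 1) = VV W n ⊔ Submodule.span ℚ {Wq W n} := by
  unfold VV
  have h : Set.Iio (n + 1) = Set.Iio n ∪ {n} := by
    ext k
    simp only [Set.mem_Iio, Set.mem_union, Set.mem_singleton_iff]
    omega
  rw [h, Set.image_union, Submodule.span_union, Set.image_singleton]

open Classical in
theorem card_piv {r : ℕ} (W : ℕ → Fin (r + 1) → ℤ) (n : ℕ) :
    ((range n).filter (fun k => Wq W k ∉ VV W k)).card = Module.finrank ℚ (VV W n) := by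
  induction n with
  | zero => rw [VV_zero]; simp
  | succ n ih =>
    rw [Finset.range_add_one, Finset.filter_insert, VV_succ]
    by_cases h : Wq W n ∈ VV W n
    · rw [if_neg (not_not.2 h), ih]
      have : VV W n ⊔ Submodule.span ℚ {Wq W n} = VV W n := by
        rw [sup_eq_left, Submodule.span_singleton_le_iff_mem]
        exact h
      rw [this]
    · rw [if_pos h, Finset.card_insert_of_notMem (by simp), ih]
      exact (Submodule.finrank_sup_span_singleton h).symm

theorem VV_piv {r : ℕ} (W : ℕ → Fin (r + 1) → ℤ) (n : ℕ) :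
    VV W n = Submodule.span ℚ (Wq W '' {k | k < n ∧ Wq W k ∉ VV W k}) := by
  induction n with
  | zero =>
    have : {k : ℕ | k < 0 ∧ Wq W k ∉ VV W k} = ∅ := by
      ext k
      simp
    rw [VV_zero, this, Set.image_empty, Submodule.span_empty]
  | succ n ih =>
    rw [VV_succ]
    by_cases h : Wq W n ∈ VV W n
    · have h1 : VV W n ⊔ Submodule.span ℚ {Wq W n} = VV W n := by
        rw [sup_eq_left, Submodule.span_singleton_le_iff_mem]
        exact h
      have h2 : {k : ℕ | k < n + 1 ∧ Wq W k ∉ VV W k} = {k : ℕ | k < n ∧ Wq W k ∉ VV W k} := by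
        ext k
        simp only [Set.mem_setOf_eq]
        constructor
        · rintro ⟨h3, h4⟩
          refine ⟨?_, h4⟩
          rcases Nat.lt_succ_iff_lt_or_eq.1 h3 with h5 | h5
          · exact h5
          · subst h5; exact absurd h h4
        · rintro ⟨h3, h4⟩
          exact ⟨by omega, h4⟩
      rw [h1, h2]
      exact ih
    · have h2 : {k : ℕ | k < n + 1 ∧ Wq W k ∉ VV W k} =
          {k : ℕ | k < n ∧ Wq W k ∉ VV W k} ∪ {n} := by
        ext k
        simp only [Set.mem_setOf_eq, Set.mem_union, Set.mem_singleton_iff]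
        constructor
        · rintro ⟨h3, h4⟩
          rcases Nat.lt_succ_iff_lt_or_eq.1 h3 with h5 | h5
          · exact Or.inl ⟨h5, h4⟩
          · exact Or.inr h5
        · rintro (⟨h3, h4⟩ | h3)
          · exact ⟨by omega, h4⟩
          · subst h3; exact ⟨by omega, h⟩
      rw [h2, Set.image_union, Submodule.span_union, Set.image_singleton, ← ih]

theorem VV_repr {r : ℕ} (W : ℕ → Fin (r + 1) → ℤ) (κ : Fin (r + 1) → ℕ) (n : ℕ)
    (P : Fin (r + 1) → Prop)
    (hκ : ∀ k, k < n → Wq W k ∉ VV W k → ∃ l, P l ∧ κ l = k) (x : Fin (r + 1) → ℚ)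
    (hx : x ∈ VV W n) :
    ∃ q : Fin (r + 1) → ℚ, (∀ l, ¬ P l → q l = 0) ∧
      ∀ i, x i = ∑ l, q l * (W (κ l) i : ℚ) := by
  rw [VV_piv] at hx
  induction hx using Submodule.span_induction with
  | mem x hx =>
    obtain ⟨k, ⟨hk, hp⟩, rfl⟩ := hx
    obtain ⟨l, hl, hlk⟩ := hκ k hk hp
    refine ⟨fun m => if m = l then 1 else 0, ?_, ?_⟩
    · intro m hm
      beta_reduce
      rw [if_neg]
      rintro rfl
      exact hm hl
    · intro i
      rw [Finset.sum_eq_single l]
      · beta_reduce
        rw [if_pos rfl, one_mul, hlk, Wq]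
      · intro m _ hm
        beta_reduce
        rw [if_neg hm, zero_mul]
      · intro h
        exact absurd (Finset.mem_univ _) h
  | zero => exact ⟨fun _ => 0, fun _ _ => rfl, fun i => by simp⟩
  | add x y _ _ hx hy =>
    obtain ⟨q, hq, hq2⟩ := hx
    obtain ⟨q', hq', hq2'⟩ := hy
    refine ⟨fun l => q l + q' l, fun l hl => by beta_reduce; rw [hq l hl, hq' l hl, add_zero], fun i => ?_⟩
    rw [Pi.add_apply, hq2 i, hq2' i, ← Finset.sum_add_distrib]
    exact Finset.sum_congr rfl fun l _ => by ring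
  | smul a x _ hx =>
    obtain ⟨q, hq, hq2⟩ := hx
    refine ⟨fun l => a * q l, fun l hl => by beta_reduce; rw [hq l hl, mul_zero], fun i => ?_⟩
    rw [Pi.smul_apply, hq2 i, smul_eq_mul, Finset.mul_sum]
    exact Finset.sum_congr rfl fun l _ => by ring

theorem VV_top {r : ℕ} (W : ℕ → Fin (r + 1) → ℤ) (Q : ℕ)
    (hsep : ∀ δ : Fin (r + 1) → ℤ, (∀ k < Q, ∑ i, δ i * W k i = 0) → δ = 0) : VV W Q = ⊤ := by
  by_contra hne
  obtain ⟨f, hf, hle⟩ := Submodule.exists_le_ker_of_lt_top (VV W Q) (lt_top_iff_ne_top.2 hne)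
  obtain ⟨b, hb⟩ := IsLocalization.exist_integer_multiples_of_finite (nonZeroDivisors ℤ)
    (fun i : Fin (r + 1) => f (Pi.single i 1))
  choose δ hδ using hb
  have hb0 : ((b : ℤ) : ℚ) ≠ 0 := by
    have := nonZeroDivisors.ne_zero b.2
    exact_mod_cast this
  have hδ' : ∀ i, (δ i : ℚ) = (b : ℤ) * f (Pi.single i 1) := by
    intro i
    have h := hδ i
    rw [zsmul_eq_mul] at h
    exact h
  have hfx : ∀ x : Fin (r + 1) → ℚ, f x = ∑ i, x i * f (Pi.single i 1) := by
    intro x
    have h := LinearMap.pi_apply_eq_sum_univ f x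
    rw [h]
    refine Finset.sum_congr rfl fun i _ => ?_
    rw [smul_eq_mul]
    congr 2
    ext j
    rw [Pi.single_apply]
    by_cases h : i = j
    · rw [if_pos h, if_pos h.symm]
    · rw [if_neg h, if_neg (Ne.symm h)]
  have h0 : δ = 0 := by
    apply hsep
    intro k hk
    have h1 : f (Wq W k) = 0 := hle (Submodule.subset_span ⟨k, hk, rfl⟩)
    rw [hfx] at h1
    have h2 : ((∑ i, δ i * W k i : ℤ) : ℚ) = 0 := by
      push_cast
      calc ∑ i, (δ i : ℚ) * (W k i : ℚ) = (b : ℤ) * ∑ i, Wq W k i * f (Pi.single i 1) := by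
            rw [Finset.mul_sum]
            refine Finset.sum_congr rfl fun i _ => ?_
            rw [hδ' i, Wq]
            ring
        _ = 0 := by rw [h1, mul_zero]
    exact_mod_cast h2
  apply hf
  ext i
  have h1 := hδ' i
  rw [h0, Pi.zero_apply, Int.cast_zero] at h1
  have h2 := (mul_eq_zero.1 h1.symm).resolve_left hb0
  simpa using h2

theorem pvt (idx : IdxStmt) : PvtStmt := by
  classical
  intro r W Q hW0 hsep hdiv
  have htop := VV_top W Q hsep
  set S : Finset ℕ := (range Q).filter (fun k => Wq W k ∉ VV W k) with hS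
  have hcard : S.card = r + 1 := by
    rw [hS, card_piv, htop]
    simp
  have hmemS : ∀ k, k ∈ S ↔ k < Q ∧ Wq W k ∉ VV W k := by
    intro k
    rw [hS, Finset.mem_filter, Finset.mem_range]
  let κ : Fin (r + 1) → ℕ := S.orderEmbOfFin hcard
  have hmono : StrictMono κ := (S.orderEmbOfFin hcard).strictMono
  have hκS : ∀ l, κ l ∈ S := fun l => Finset.orderEmbOfFin_mem S hcard l
  have hsurj : ∀ k ∈ S, ∃ l, κ l = k := by
    intro k hk
    have h : k ∈ Set.range (S.orderEmbOfFin hcard) := by
      rw [Finset.range_orderEmbOfFin]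
      exact hk
    exact h
  have hQ : 0 < Q := by
    have h := (hmemS _).1 (hκS 0)
    omega
  have h0S : 0 ∈ S := by
    rw [hmemS]
    refine ⟨hQ, ?_⟩
    rw [VV_zero, Submodule.mem_bot]
    intro h
    apply hW0
    ext i
    have h1 := congrFun h i
    simp only [Wq, Pi.zero_apply] at h1
    rw [Pi.zero_apply]
    exact_mod_cast h1
  have hκ0 : κ 0 = 0 := by
    obtain ⟨l, hl⟩ := hsurj 0 h0S
    have h := hmono.monotone (Fin.zero_le l)
    omega
  have hκQ : κ (Fin.last r) < Q := ((hmemS _).1 (hκS _)).1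
  -- representation of the rows before a pivot
  have hrep : ∀ (j : Fin (r + 1)) (k : ℕ), k < κ j → ∃ q : Fin (r + 1) → ℚ,
      (∀ l, ¬ l < j → q l = 0) ∧ ∀ i, (W k i : ℚ) = ∑ l, q l * (W (κ l) i : ℚ) := by
    intro j k hk
    have hx : Wq W k ∈ VV W (κ j) := Submodule.subset_span ⟨k, hk, rfl⟩
    refine VV_repr W κ (κ j) (fun l => l < j) ?_ (Wq W k) hx
    intro m hm hp
    obtain ⟨l, hl⟩ := hsurj m ((hmemS m).2 ⟨hm.trans ((hmemS _).1 (hκS j)).1, hp⟩)
    refine ⟨l, ?_, hl⟩
    rw [← hl] at hm
    exact hmono.lt_iff_lt.1 hm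
  let A : Matrix (Fin (r + 1)) (Fin (r + 1)) ℤ := Matrix.of fun j i => W (κ j) i
  have hdetA : A.det ≠ 0 := by
    have hli : LinearIndependent ℚ (fun j => Wq W (κ j)) := by
      apply linearIndependent_of_top_le_span_of_card_eq_finrank
      · rw [← htop, VV_piv]
        apply Submodule.span_mono
        rintro x ⟨k, hk, rfl⟩
        obtain ⟨l, hl⟩ := hsurj k ((hmemS k).2 hk)
        exact ⟨l, by rw [← hl]⟩
      · simp
    have hunit : IsUnit ((Int.castRingHom ℚ).mapMatrix A) := by
      rw [← Matrix.linearIndependent_rows_iff_isUnit]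
      exact hli
    rw [Matrix.isUnit_iff_isUnit_det, ← RingHom.map_det] at hunit
    intro h
    rw [h, map_zero] at hunit
    exact not_isUnit_zero hunit
  refine ⟨κ, hmono, hκ0, hκQ, fun C => ?_⟩
  -- the determinant of the pivot rows
  have hidx : ∏ j : Fin r, (κ j.succ : ℤ) ≤ |A.det| := by
    have hd : ∀ j : Fin (r + 1), 0 < (if j = 0 then 1 else κ j) := by
      intro j
      by_cases h : j = 0
      · rw [if_pos h]
        exact one_pos
      · rw [if_neg h]
        have := hmono (Fin.pos_iff_ne_zero.2 h)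
        omega
    have h := idx (r + 1) A (fun j => if j = 0 then 1 else κ j) hdetA hd ?_
    · rw [Fin.prod_univ_succ] at h
      simpa using h
    · intro δ j hj
      by_cases h : j = 0
      · simp [h]
      · have hpos : 0 < κ j := by
          have := hmono (Fin.pos_iff_ne_zero.2 h)
          omega
        have h2 := hdiv (κ j) hpos δ ?_
        · simp only [h, if_false]
          have h3 : A.mulVec δ j = ∑ i, δ i * W (κ j) i := by
            simp only [Matrix.mulVec, dotProduct, A, Matrix.of_apply]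
            exact Finset.sum_congr rfl fun i _ => mul_comm _ _
          rw [h3]
          exact h2
        · intro k hk
          obtain ⟨q, hq0, hq⟩ := hrep j k hk
          have h4 : ((∑ i, δ i * W k i : ℤ) : ℚ) = 0 := by
            push_cast
            calc ∑ i, (δ i : ℚ) * (W k i : ℚ)
                = ∑ i, ∑ l, (δ i : ℚ) * (q l * (W (κ l) i : ℚ)) := by
                  refine Finset.sum_congr rfl fun i _ => ?_
                  rw [hq i, Finset.mul_sum]
              _ = ∑ l, q l * ((A.mulVec δ l : ℤ) : ℚ) := by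
                  rw [Finset.sum_comm]
                  refine Finset.sum_congr rfl fun l _ => ?_
                  simp only [Matrix.mulVec, dotProduct, A, Matrix.of_apply]
                  push_cast
                  rw [Finset.mul_sum]
                  exact Finset.sum_congr rfl fun i _ => by ring
              _ = 0 := by
                  apply Finset.sum_eq_zero
                  intro l _
                  by_cases hl : l < j
                  · rw [hj l hl, Int.cast_zero, mul_zero]
                  · rw [hq0 l hl, zero_mul]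
          exact_mod_cast h4
  -- the unitriangular matrix
  choose q hq0 hq using hrep
  let t : Fin (r + 1) → Fin (r + 1) → ℝ := fun j l =>
    ∑ k ∈ (Finset.range (κ j)).attach, C j k.1 * ((q j k.1 (Finset.mem_range.1 k.2) l : ℚ) : ℝ)
  let T : Matrix (Fin (r + 1)) (Fin (r + 1)) ℝ :=
    Matrix.of fun j l => (if l = j then 1 else 0) + t j l
  have ht0 : ∀ j l, ¬ l < j → t j l = 0 := by
    intro j l hl
    apply Finset.sum_eq_zero
    intro k _
    rw [hq0 j k.1 (Finset.mem_range.1 k.2) l hl]
    simp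
  have hdetT : T.det = 1 := by
    rw [Matrix.det_of_isLowerTriangular]
    · apply Finset.prod_eq_one
      intro j _
      simp only [T, Matrix.of_apply, if_true]
      rw [ht0 j j (lt_irrefl _), add_zero]
    · intro i j hij
      have hij' : i < j := hij
      simp only [T, Matrix.of_apply]
      rw [ht0 i j (not_lt.2 hij'.le), if_neg hij'.ne', add_zero]
  have hB : (Matrix.of fun (j i : Fin (r + 1)) =>
      (W (κ j) i : ℝ) + ∑ k ∈ Finset.range (κ j), C j k * (W k i : ℝ)) =
      T * (Int.castRingHom ℝ).mapMatrix A := by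
    ext j i
    rw [Matrix.mul_apply]
    simp only [T, Matrix.of_apply, RingHom.mapMatrix_apply, Matrix.map_apply, A,
      Int.coe_castRingHom, add_mul, Finset.sum_add_distrib]
    congr 1
    · simp
    · have h1 : ∀ k (hk : k < κ j), (W k i : ℝ) = ∑ l, ((q j k hk l : ℚ) : ℝ) * (W (κ l) i : ℝ) := by
        intro k hk
        have h := hq j k hk i
        have h2 : ((W k i : ℚ) : ℝ) = ((∑ l, q j k hk l * (W (κ l) i : ℚ) : ℚ) : ℝ) := by
          rw [h]
        push_cast at h2
        exact h2
      rw [← Finset.sum_attach]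
      calc ∑ k ∈ (Finset.range (κ j)).attach, C j k.1 * (W k.1 i : ℝ)
          = ∑ k ∈ (Finset.range (κ j)).attach, ∑ l, C j k.1 *
              (((q j k.1 (Finset.mem_range.1 k.2) l : ℚ) : ℝ) * (W (κ l) i : ℝ)) := by
            refine Finset.sum_congr rfl fun k _ => ?_
            rw [h1 k.1 (Finset.mem_range.1 k.2), Finset.mul_sum]
        _ = ∑ l, t j l * (W (κ l) i : ℝ) := by
            rw [Finset.sum_comm]
            refine Finset.sum_congr rfl fun l _ => ?_
            simp only [t]
            rw [Finset.sum_mul]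
            exact Finset.sum_congr rfl fun k _ => by ring
  rw [hB, Matrix.det_mul, hdetT, one_mul, ← RingHom.map_det]
  have h5 : ((∏ j : Fin r, (κ j.succ : ℤ) : ℤ) : ℝ) ≤ ((|A.det| : ℤ) : ℝ) := by
    exact_mod_cast hidx
  rw [Int.cast_prod, Int.cast_abs] at h5
  rw [eq_intCast]
  exact_mod_cast h5

end Pool.Agent.GLE.H25
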